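import Mathlib

set_option autoImplicit false
open scoped ENNReal MeasureTheory
open MeasureTheory Set

namespace Pool.Agent.GoncharArc

/-- The point at angle `θ` on the circle of radius `s` about `c`. -/
noncomputable def circ (c : EuclideanSpace ℝ (Fin 2)) (s θ : ℝ) : EuclideanSpace ℝ (Fin 2) :=
  c + WithLp.toLp 2 ![s * Real.cos θ, s * Real.sin θ]

lemma circ_zero (c : EuclideanSpace ℝ (Fin 2)) (s θ : ℝ) : circ c s θ 0 = c 0 + s * Real.cos θ := by
  simp [circ]

lemma circ_one (c : EuclideanSpace ℝ (Fin 2)) (s θ : ℝ) : circ c s θ 1 = c 1 + s * Real.sin θ := by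
  simp [circ]

lemma dist_circ_circ (c : EuclideanSpace ℝ (Fin 2)) (s θ φ : ℝ) :
    dist (circ c s θ) (circ c s φ) ^ 2 = s ^ 2 * (2 - 2 * Real.cos (θ - φ)) := by
  rw [EuclideanSpace.dist_eq, Real.sq_sqrt (by positivity)]
  simp only [Fin.sum_univ_two, circ_zero, circ_one, Real.dist_eq, sq_abs]
  rw [Real.cos_sub]
  have h1 := Real.sin_sq_add_cos_sq θ
  have h2 := Real.sin_sq_add_cos_sq φ
  linear_combination s ^ 2 * h1 + s ^ 2 * h2

lemma dist_circ_center (c : EuclideanSpace ℝ (Fin 2)) {s : ℝ} (hs : 0 ≤ s) (θ : ℝ) :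
    dist (circ c s θ) c = s := by
  have : dist (circ c s θ) c ^ 2 = s ^ 2 := by
    rw [EuclideanSpace.dist_eq, Real.sq_sqrt (by positivity)]
    simp only [Fin.sum_univ_two, circ_zero, circ_one, Real.dist_eq, sq_abs]
    have h1 := Real.sin_sq_add_cos_sq θ
    linear_combination s ^ 2 * h1
  exact (pow_left_inj₀ dist_nonneg hs two_ne_zero).1 this

lemma circ_lipschitz (c : EuclideanSpace ℝ (Fin 2)) {s : ℝ} (hs : 0 ≤ s) :
    LipschitzWith (Real.toNNReal s) (circ c s) := by
  refine LipschitzWith.of_dist_le_mul fun θ φ => ?_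
  rw [Real.coe_toNNReal s hs]
  refine le_of_sq_le_sq ?_ (by positivity)
  rw [dist_circ_circ, mul_pow, Real.dist_eq, sq_abs]
  have := Real.one_sub_sq_div_two_le_cos (x := θ - φ)
  have h2 : 0 ≤ s ^ 2 := by positivity
  nlinarith

lemma continuous_circ (c : EuclideanSpace ℝ (Fin 2)) : Continuous fun p : ℝ × ℝ => circ c p.1 p.2 := by
  unfold circ
  refine continuous_const.add ?_
  refine (PiLp.continuous_toLp 2 _).comp ?_
  refine continuous_pi fun i => ?_
  fin_cases i <;> simp <;> fun_prop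

lemma circ_injOn (c : EuclideanSpace ℝ (Fin 2)) {s : ℝ} (hs : 0 < s) :
    InjOn (circ c s) (Ioc (-Real.pi) Real.pi) := by
  intro θ hθ φ hφ h
  have h0 : Real.cos θ = Real.cos φ := by
    have := congrArg (fun v : EuclideanSpace ℝ (Fin 2) => v 0) h
    simp only [circ_zero] at this
    have := add_left_cancel this
    exact mul_left_cancel₀ hs.ne' this
  have h1 : Real.sin θ = Real.sin φ := by
    have := congrArg (fun v : EuclideanSpace ℝ (Fin 2) => v 1) h
    simp only [circ_one] at this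
    have := add_left_cancel this
    exact mul_left_cancel₀ hs.ne' this
  have e1 := Complex.arg_cos_add_sin_mul_I hθ
  have e2 := Complex.arg_cos_add_sin_mul_I hφ
  rw [← e1, ← e2, ← Complex.ofReal_cos, ← Complex.ofReal_sin, h0, h1, Complex.ofReal_cos, Complex.ofReal_sin]

lemma exists_circ (c p : EuclideanSpace ℝ (Fin 2)) {s : ℝ} (hs : 0 < s) (h : dist p c = s) :
    ∃ θ ∈ Ioc (-Real.pi) Real.pi, circ c s θ = p := by
  set z : ℂ := ⟨p 0 - c 0, p 1 - c 1⟩ with hz
  have hnorm : ‖z‖ = s := by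
    have : ‖z‖ ^ 2 = s ^ 2 := by
      rw [Complex.sq_norm, Complex.normSq_apply, ← h, EuclideanSpace.dist_eq, Real.sq_sqrt (by positivity)]
      simp only [Fin.sum_univ_two, Real.dist_eq, sq_abs, hz]
      ring
    exact (pow_left_inj₀ (norm_nonneg _) hs.le two_ne_zero).1 this
  refine ⟨Complex.arg z, Complex.arg_mem_Ioc z, ?_⟩
  have hre : ‖z‖ * Real.cos (Complex.arg z) = z.re := Complex.norm_mul_cos_arg z
  have him : ‖z‖ * Real.sin (Complex.arg z) = z.im := Complex.norm_mul_sin_arg z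
  rw [hnorm] at hre him
  have hzre : z.re = p 0 - c 0 := rfl
  have hzim : z.im = p 1 - c 1 := rfl
  ext i
  fin_cases i
  · show circ c s (Complex.arg z) 0 = p 0
    rw [circ_zero, hre, hzre]; ring
  · show circ c s (Complex.arg z) 1 = p 1
    rw [circ_one, him, hzim]; ring

/-- The circle. -/
noncomputable def C (c : EuclideanSpace ℝ (Fin 2)) (s : ℝ) : Set (EuclideanSpace ℝ (Fin 2)) :=
  circ c s '' Ioc (-Real.pi) Real.pi

lemma restrict_C_le (c : EuclideanSpace ℝ (Fin 2)) {s : ℝ} (hs : 0 < s) :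
    (μH[1] : Measure (EuclideanSpace ℝ (Fin 2))).restrict (C c s) ≤
      ENNReal.ofReal s • Measure.map (circ c s) (volume.restrict (Ioc (-Real.pi) Real.pi)) := by
  have hcont : Continuous (circ c s) := (circ_lipschitz c hs.le).continuous
  refine Measure.le_iff.2 fun A hA => ?_
  have key : A ∩ C c s = circ c s '' (Ioc (-Real.pi) Real.pi ∩ circ c s ⁻¹' A) := by
    rw [C, image_inter_preimage, inter_comm]
  rw [Measure.restrict_apply hA, Measure.smul_apply, Measure.map_apply hcont.measurable hA,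
    Measure.restrict_apply (hcont.measurable hA), key]
  have := (circ_lipschitz c hs.le).hausdorffMeasure_image_le zero_le_one
    (Ioc (-Real.pi) Real.pi ∩ circ c s ⁻¹' A)
  rw [hausdorffMeasure_real, ENNReal.rpow_one] at this
  rw [inter_comm (circ c s ⁻¹' A)]
  exact this

lemma lintegral_C_le (c : EuclideanSpace ℝ (Fin 2)) {s : ℝ} (hs : 0 < s)
    {ρ : EuclideanSpace ℝ (Fin 2) → ℝ≥0∞} (hρ : Measurable ρ) :
    ∫⁻ x in C c s, ρ x ∂μH[1] ≤
      ENNReal.ofReal s * ∫⁻ θ in Ioc (-Real.pi) Real.pi, ρ (circ c s θ) := by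
  have hcont : Continuous (circ c s) := (circ_lipschitz c hs.le).continuous
  calc ∫⁻ x in C c s, ρ x ∂μH[1]
      ≤ ∫⁻ x, ρ x ∂(ENNReal.ofReal s •
          Measure.map (circ c s) (volume.restrict (Ioc (-Real.pi) Real.pi))) :=
        lintegral_mono' (restrict_C_le c hs) le_rfl
    _ = ENNReal.ofReal s * ∫⁻ θ in Ioc (-Real.pi) Real.pi, ρ (circ c s θ) := by
        rw [lintegral_smul_measure, lintegral_map hρ hcont.measurable, smul_eq_mul]

lemma hausdorff_C_lt_top (c : EuclideanSpace ℝ (Fin 2)) {s : ℝ} (hs : 0 < s) :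
    μH[1] (C c s) < ⊤ := by
  have := lintegral_C_le c hs (ρ := fun _ => 1) measurable_const
  simp only [lintegral_const, Measure.restrict_apply MeasurableSet.univ, univ_inter, one_mul] at this
  refine this.trans_lt ?_
  rw [Real.volume_Ioc]
  exact ENNReal.mul_lt_top ENNReal.ofReal_lt_top ENNReal.ofReal_lt_top

/-- elementary AM-GM. -/
lemma amgm (a l : ℝ≥0∞) : 2 * l * a ≤ l ^ 2 + a ^ 2 := by
  rcases eq_or_ne a ⊤ with rfl | ha
  · simp
  rcases eq_or_ne l ⊤ with rfl | hl
  · simp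
  lift a to NNReal using ha
  lift l to NNReal using hl
  norm_cast
  rw [← NNReal.coe_le_coe]
  push_cast
  nlinarith [sq_nonneg ((l : ℝ) - a)]

/-- If the integral over the circle is at least `1/2`, the angular integral of the square is large. -/
lemma sq_ge (c : EuclideanSpace ℝ (Fin 2)) {s : ℝ} (hs : 0 < s)
    {ρ : EuclideanSpace ℝ (Fin 2) → ℝ≥0∞} (hρ : Measurable ρ)
    (h : 1 / 2 ≤ ENNReal.ofReal s * ∫⁻ θ in Ioc (-Real.pi) Real.pi, ρ (circ c s θ)) :
    ENNReal.ofReal (1 / (8 * Real.pi * s)) ≤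
      ENNReal.ofReal s * ∫⁻ θ in Ioc (-Real.pi) Real.pi, ρ (circ c s θ) ^ 2 := by
  have hcont : Continuous (circ c s) := (circ_lipschitz c hs.le).continuous
  set I1 := ∫⁻ θ in Ioc (-Real.pi) Real.pi, ρ (circ c s θ) with hI1
  set I2 := ∫⁻ θ in Ioc (-Real.pi) Real.pi, ρ (circ c s θ) ^ 2 with hI2
  set l : ℝ := 1 / (4 * Real.pi * s) with hl
  have hpi := Real.pi_pos
  have hl0 : 0 < l := by positivity
  have h1 : 2 * ENNReal.ofReal l * I1 ≤ ENNReal.ofReal l ^ 2 * ENNReal.ofReal (2 * Real.pi) + I2 := by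
    calc 2 * ENNReal.ofReal l * I1
        = ∫⁻ θ in Ioc (-Real.pi) Real.pi, 2 * ENNReal.ofReal l * ρ (circ c s θ) := by
          exact (lintegral_const_mul (2 * ENNReal.ofReal l) (f := fun θ => ρ (circ c s θ))
            (hρ.comp hcont.measurable)).symm
      _ ≤ ∫⁻ θ in Ioc (-Real.pi) Real.pi, (ENNReal.ofReal l ^ 2 + ρ (circ c s θ) ^ 2) :=
          lintegral_mono fun θ => amgm _ _
      _ = ENNReal.ofReal l ^ 2 * ENNReal.ofReal (2 * Real.pi) + I2 := by
          rw [lintegral_add_left measurable_const, lintegral_const,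
            Measure.restrict_apply MeasurableSet.univ, univ_inter, Real.volume_Ioc]
          congr 3
          ring
  have h2 : ENNReal.ofReal l ≤ ENNReal.ofReal (1 / (8 * Real.pi * s)) + ENNReal.ofReal s * I2 := by
    calc ENNReal.ofReal l = 2 * ENNReal.ofReal l * (1 / 2) := by
          rw [mul_comm 2, mul_assoc, ← mul_div_assoc, mul_one, ENNReal.div_self two_ne_zero ENNReal.ofNat_ne_top, mul_one]
      _ ≤ 2 * ENNReal.ofReal l * (ENNReal.ofReal s * I1) := by gcongr
      _ = ENNReal.ofReal s * (2 * ENNReal.ofReal l * I1) := by ring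
      _ ≤ ENNReal.ofReal s * (ENNReal.ofReal l ^ 2 * ENNReal.ofReal (2 * Real.pi) + I2) := by gcongr
      _ = ENNReal.ofReal (1 / (8 * Real.pi * s)) + ENNReal.ofReal s * I2 := by
          rw [mul_add, ← ENNReal.ofReal_pow hl0.le, ← ENNReal.ofReal_mul (by positivity),
            ← ENNReal.ofReal_mul hs.le]
          congr 2
          rw [hl]
          field_simp
          ring
  have h3 : ENNReal.ofReal l - ENNReal.ofReal (1 / (8 * Real.pi * s)) ≤ ENNReal.ofReal s * I2 := by
    rw [tsub_le_iff_left]; exact h2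
  rw [← ENNReal.ofReal_sub _ (by positivity)] at h3
  have h4 : l - 1 / (8 * Real.pi * s) = 1 / (8 * Real.pi * s) := by
    rw [hl]; field_simp; ring
  rwa [h4] at h3

/-- polar coordinates in `EuclideanSpace ℝ (Fin 2)` around `c`. -/
lemma polar (c : EuclideanSpace ℝ (Fin 2)) {f : EuclideanSpace ℝ (Fin 2) → ℝ≥0∞} (hf : Measurable f) :
    ∫⁻ x, f x = ∫⁻ s in Ioi (0:ℝ), ENNReal.ofReal s * ∫⁻ θ in Ioc (-Real.pi) Real.pi, f (circ c s θ) := by
  have e1 : ∫⁻ x, f x = ∫⁻ x, f (c + x) := (lintegral_add_left_eq_self f c).symm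
  have e2 : ∫⁻ x, f (c + x) = ∫⁻ p : Fin 2 → ℝ, f (c + WithLp.toLp 2 p) :=
    ((PiLp.volume_preserving_toLp (Fin 2)).lintegral_comp (hf.comp (measurable_const_add c))).symm
  have e3 : ∫⁻ p : Fin 2 → ℝ, f (c + WithLp.toLp 2 p) =
      ∫⁻ q : ℝ × ℝ, f (c + WithLp.toLp 2 ![q.1, q.2]) := by
    have hm : Measurable fun p : Fin 2 → ℝ => f (c + WithLp.toLp 2 p) :=
      (hf.comp (measurable_const_add c)).comp (PiLp.volume_preserving_toLp (Fin 2)).measurable
    have := (volume_preserving_finTwoArrow ℝ).symm.lintegral_comp hm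
    rw [← this]
    rfl
  rw [e1, e2, e3, ← lintegral_comp_polarCoord_symm, polarCoord_target]
  have hm2 : Measurable fun p : ℝ × ℝ => ENNReal.ofReal p.1 * f (circ c p.1 p.2) :=
    (ENNReal.measurable_ofReal.comp measurable_fst).mul (hf.comp (continuous_circ c).measurable)
  have e4 : (fun p : ℝ × ℝ => ENNReal.ofReal p.1 • f (c + WithLp.toLp 2 ![(polarCoord.symm p).1, (polarCoord.symm p).2]))
      = fun p => ENNReal.ofReal p.1 * f (circ c p.1 p.2) := by
    funext p
    simp [circ]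
  rw [e4, Measure.volume_eq_prod, ← Measure.prod_restrict, lintegral_prod _ hm2.aemeasurable]
  refine lintegral_congr fun s => ?_
  have hm3 : Measurable fun θ => f (circ c s θ) :=
    hf.comp ((continuous_circ c).comp (Continuous.prodMk_right s)).measurable
  show ∫⁻ (θ : ℝ) in Ioo (-Real.pi) Real.pi, ENNReal.ofReal s * f (circ c s θ) = _
  rw [lintegral_const_mul _ hm3]
  congr 1
  exact setLIntegral_congr Ioo_ae_eq_Ioc

lemma measurable_angular (c : EuclideanSpace ℝ (Fin 2)) {f : EuclideanSpace ℝ (Fin 2) → ℝ≥0∞}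
    (hf : Measurable f) :
    Measurable fun s : ℝ => ENNReal.ofReal s * ∫⁻ θ in Ioc (-Real.pi) Real.pi, f (circ c s θ) :=
  ENNReal.measurable_ofReal.mul
    (Measurable.lintegral_prod_right' (f := fun p : ℝ × ℝ => f (circ c p.1 p.2))
      (hf.comp (continuous_circ c).measurable))

/-- Key estimate. -/
lemma disc_bound (c : EuclideanSpace ℝ (Fin 2)) {δ : ℝ} (hδ : 0 < δ)
    {ρ : EuclideanSpace ℝ (Fin 2) → ℝ≥0∞} (hρ : Measurable ρ) {S : Set ℝ} (hS : S ⊆ Ioo 0 δ)
    (h : ∀ s ∈ S, 1 / 2 ≤ ∫⁻ x in C c s, ρ x ∂μH[1]) :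
    volume S ≤ ENNReal.ofReal (8 * Real.pi * δ) * ∫⁻ x in Metric.ball c δ, ρ x ^ 2 := by
  have hpi := Real.pi_pos
  set G : ℝ → ℝ≥0∞ := fun s => ENNReal.ofReal s * ∫⁻ θ in Ioc (-Real.pi) Real.pi, ρ (circ c s θ) ^ 2 with hG
  have hGm : Measurable G := measurable_angular c (hρ.pow_const 2)
  have h1 : ∫⁻ s in Ioo 0 δ, G s ≤ ∫⁻ x in Metric.ball c δ, ρ x ^ 2 := by
    rw [← lintegral_indicator Metric.isOpen_ball.measurableSet,
      polar c ((hρ.pow_const 2).indicator Metric.isOpen_ball.measurableSet)]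
    calc ∫⁻ s in Ioo 0 δ, G s ≤ ∫⁻ s in Ioo 0 δ, ENNReal.ofReal s *
          ∫⁻ θ in Ioc (-Real.pi) Real.pi, (Metric.ball c δ).indicator (fun x => ρ x ^ 2) (circ c s θ) := by
          refine setLIntegral_mono' measurableSet_Ioo fun s hs => ?_
          refine le_of_eq ?_
          simp only [hG]
          congr 1
          refine lintegral_congr fun θ => ?_
          rw [indicator_of_mem]
          rw [Metric.mem_ball, dist_circ_center c hs.1.le]
          exact hs.2
      _ ≤ _ := lintegral_mono_set Ioo_subset_Ioi_self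
  have h2 : ∀ s ∈ S, ENNReal.ofReal (1 / (8 * Real.pi * δ)) ≤ G s := by
    intro s hs
    have hs' := hS hs
    have hs0 : 0 < s := hs'.1
    refine le_trans (ENNReal.ofReal_le_ofReal ?_) (sq_ge c hs0 hρ ((h s hs).trans (lintegral_C_le c hs0 hρ)))
    have : s ≤ δ := hs'.2.le
    gcongr
  have h3 : ENNReal.ofReal (1 / (8 * Real.pi * δ)) * volume S ≤ ∫⁻ s in Ioo 0 δ, G s := by
    refine le_trans ?_ (mul_meas_ge_le_lintegral hGm (ENNReal.ofReal (1 / (8 * Real.pi * δ))))
    refine mul_le_mul_right ?_ _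
    rw [Measure.restrict_apply (measurableSet_le measurable_const hGm)]
    exact measure_mono fun s hs => ⟨h2 s hs, hS hs⟩
  calc volume S = ENNReal.ofReal (8 * Real.pi * δ) * (ENNReal.ofReal (1 / (8 * Real.pi * δ)) * volume S) := by
        rw [← mul_assoc, ← ENNReal.ofReal_mul (by positivity), mul_one_div_cancel (by positivity),
          ENNReal.ofReal_one, one_mul]
    _ ≤ _ := by
        gcongr
        exact h3.trans h1



/-- Small discs carry little of a finite measure. -/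
lemma small_ball {f : EuclideanSpace ℝ (Fin 2) → ℝ≥0∞} (hfin : ∫⁻ x, f x ≠ ⊤)
    (c : EuclideanSpace ℝ (Fin 2)) {ε : ℝ≥0∞} (hε : ε ≠ 0) :
    ∃ δ₀ : ℝ, 0 < δ₀ ∧ ∀ δ, 0 < δ → δ ≤ δ₀ → ∫⁻ x in Metric.ball c δ, f x < ε := by
  obtain ⟨η, hη0, hη⟩ := exists_pos_setLIntegral_lt_of_measure_lt hfin hε
  set K := volume (Metric.ball (0 : EuclideanSpace ℝ (Fin 2)) 1) with hK
  have hKtop : K ≠ ⊤ := Metric.isBounded_ball.measure_lt_top.ne
  have ht : Filter.Tendsto (fun δ : ℝ => ENNReal.ofReal (δ ^ 2) * K) (nhds 0) (nhds 0) := by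
    have h1 : Filter.Tendsto (fun δ : ℝ => ENNReal.ofReal (δ ^ 2)) (nhds 0) (nhds 0) := by
      have : Continuous fun δ : ℝ => ENNReal.ofReal (δ ^ 2) :=
        ENNReal.continuous_ofReal.comp (continuous_pow 2)
      have h := this.tendsto 0
      simpa using h
    have h2 := ENNReal.Tendsto.mul_const h1 (b := K) (Or.inr hKtop)
    simpa using h2
  have hev := (tendsto_order.1 ht).2 η hη0
  obtain ⟨r, hr0, hr⟩ := Metric.eventually_nhds_iff.1 hev
  refine ⟨r / 2, by positivity, fun δ hδ0 hδ => hη _ ?_⟩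
  have : volume (Metric.ball c δ) = ENNReal.ofReal (δ ^ 2) * K := by
    rw [Measure.addHaar_ball _ _ hδ0.le]
    simp [hK]
  rw [this]
  refine hr ?_
  rw [Real.dist_eq, sub_zero, abs_of_pos hδ0]
  linarith

lemma initial_piece (γ : C(unitInterval, EuclideanSpace ℝ (Fin 2))) (hinj : Function.Injective γ)
    {ρ : EuclideanSpace ℝ (Fin 2) → ℝ≥0∞} (hfin : ∫⁻ x in range γ, ρ x ∂μH[1] ≠ ⊤) :
    ∃ t₀ : unitInterval, 0 < t₀ ∧ ∫⁻ x in γ '' Icc 0 t₀, ρ x ∂μH[1] < 1 / 2 := by
  set ν : Measure (EuclideanSpace ℝ (Fin 2)) := (μH[1] : Measure (EuclideanSpace ℝ (Fin 2))).withDensity ρ with hν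
  have hmem : ∀ n : ℕ, (1 / ((n : ℝ) + 1)) ∈ unitInterval := fun n => by
    constructor
    · positivity
    · rw [div_le_one (by positivity)]; linarith [n.cast_nonneg (α := ℝ)]
  set u : ℕ → unitInterval := fun n => ⟨1 / ((n : ℝ) + 1), hmem n⟩ with hu
  have hu0 : ∀ n, 0 < u n := fun n => by
    rw [← Subtype.coe_lt_coe]; simp only [hu]; show (0:ℝ) < _; positivity
  set A : ℕ → Set (EuclideanSpace ℝ (Fin 2)) := fun n => γ '' Icc 0 (u n) with hA
  have hAc : ∀ n, IsCompact (A n) := fun n => (isCompact_Icc).image γ.continuous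
  have hanti : Antitone A := by
    intro m n hmn
    refine image_mono (Icc_subset_Icc_right ?_)
    rw [← Subtype.coe_le_coe]
    simp only [hu]
    have : (m : ℝ) ≤ n := by exact_mod_cast hmn
    gcongr
  have hint : ⋂ n, A n = {γ 0} := by
    apply Subset.antisymm
    · intro x hx
      rw [mem_iInter] at hx
      obtain ⟨t, ht, rfl⟩ := hx 0
      have h0 : ∀ n : ℕ, (t : ℝ) ≤ 1 / ((n : ℝ) + 1) := by
        intro n
        obtain ⟨t', ht', h'⟩ := hx n
        rw [hinj h'] at ht'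
        exact ht'.2
      have : (t : ℝ) ≤ 0 := by
        have hlim : Filter.Tendsto (fun n : ℕ => 1 / ((n : ℝ) + 1)) Filter.atTop (nhds 0) :=
          tendsto_one_div_add_atTop_nhds_zero_nat
        exact ge_of_tendsto' hlim h0
      have ht0 : t = 0 := by
        apply Subtype.ext
        exact le_antisymm this t.2.1
      rw [ht0]; rfl
    · rintro x rfl
      rw [mem_iInter]
      intro n
      exact ⟨0, ⟨le_rfl, (hu0 n).le⟩, rfl⟩
  have hlim := tendsto_measure_iInter_atTop (μ := ν) (s := A) (fun n => (hAc n).measurableSet.nullMeasurableSet)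
    hanti ⟨0, by
      rw [hν, withDensity_apply _ (hAc 0).measurableSet]
      exact ((lintegral_mono_set (image_subset_range _ _)).trans_lt (lt_top_iff_ne_top.2 hfin)).ne⟩
  have hzero : ν {γ 0} = 0 := by
    have : NullSingletonClass (μH[1] : Measure (EuclideanSpace ℝ (Fin 2))) :=
      Measure.nullSingletonClass_hausdorff _ one_pos
    exact withDensity_absolutelyContinuous _ _ (measure_singleton _)
  rw [hint, hzero] at hlim
  have hhalf : (0 : ℝ≥0∞) < 1 / 2 := by simp
  obtain ⟨n, hn⟩ := ((tendsto_order.1 hlim).2 _ hhalf).exists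
  refine ⟨u n, hu0 n, ?_⟩
  have := hn
  simp only [Function.comp] at this
  rwa [hν, withDensity_apply _ (hAc n).measurableSet] at this


/-- Concatenate an initial piece of `γ` with a circular arc. -/
lemma exists_concat (γ : C(unitInterval, EuclideanSpace ℝ (Fin 2))) (hinj : Function.Injective γ)
    {t₀ : unitInterval} (ht₀ : 0 < t₀) {s : ℝ} (hs : 0 < s) (hs' : s < dist (γ t₀) (γ 0))
    {q : EuclideanSpace ℝ (Fin 2)} (hq : dist q (γ 0) = s) :
    ∃ β : C(unitInterval, EuclideanSpace ℝ (Fin 2)), Function.Injective β ∧ β 0 = γ 0 ∧ β 1 = q ∧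
      range β ⊆ γ '' Icc 0 t₀ ∪ C (γ 0) s := by
  set e := γ 0 with he
  set g : ℝ → EuclideanSpace ℝ (Fin 2) := fun t => γ (projIcc 0 1 zero_le_one t) with hg
  have hgc : Continuous g := γ.continuous.comp continuous_projIcc
  have hginj : InjOn g (Icc 0 1) := by
    intro a ha b hb hab
    have := hinj hab
    rw [projIcc_of_mem _ ha, projIcc_of_mem _ hb] at this
    exact congrArg Subtype.val this
  have hg0 : g 0 = e := by
    simp only [hg, he]
    rw [projIcc_left]; rfl
  have hgt0 : g t₀ = γ t₀ := by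
    simp only [hg]
    rw [projIcc_val]
  have ht₀0 : (0 : ℝ) < t₀ := ht₀
  have ht₀1 : (t₀ : ℝ) ≤ 1 := t₀.2.2
  set K : Set ℝ := {t ∈ Icc 0 (t₀ : ℝ) | s ≤ dist (g t) e} with hK
  have hKc : IsCompact K := by
    refine isCompact_Icc.inter_right ?_
    exact isClosed_le continuous_const (hgc.dist continuous_const)
  have hKne : K.Nonempty := ⟨t₀, ⟨⟨ht₀0.le, le_rfl⟩, by rw [hgt0]; exact hs'.le⟩⟩
  obtain ⟨tm, htmK, htmin⟩ := hKc.exists_isLeast hKne
  have htm0 : 0 < tm := by
    rcases htmK.1.1.eq_or_lt with h | h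
    · exfalso
      have := htmK.2
      rw [← h, hg0, dist_self] at this
      linarith
    · exact h
  have hlt : ∀ t, 0 ≤ t → t < tm → dist (g t) e < s := by
    intro t ht0 ht
    by_contra hcon
    push Not at hcon
    have : t ∈ K := ⟨⟨ht0, ht.le.trans htmK.1.2⟩, hcon⟩
    exact absurd (htmin this) (not_le.2 ht)
  have hdist : dist (g tm) e = s := by
    refine le_antisymm ?_ htmK.2
    by_contra hcon
    push Not at hcon
    have hf : ContinuousOn (fun t => dist (g t) e) (Icc 0 tm) := (hgc.dist continuous_const).continuousOn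
    have : s ∈ Icc (dist (g 0) e) (dist (g tm) e) := ⟨by rw [hg0, dist_self]; exact hs.le, hcon.le⟩
    obtain ⟨t, ht, hts⟩ := intermediate_value_Icc htm0.le hf this
    rcases ht.2.eq_or_lt with h | h
    · rw [h] at hts; simp only at hts; linarith
    · have := hlt t ht.1 h
      simp only at hts
      linarith
  have hle : ∀ t, 0 ≤ t → t ≤ tm → dist (g t) e ≤ s := by
    intro t h0 h1
    rcases h1.eq_or_lt with h | h
    · rw [h, hdist]
    · exact (hlt t h0 h).le
  have htm1 : tm ≤ 1 := htmK.1.2.trans ht₀1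
  have hgrange : ∀ t, 0 ≤ t → t ≤ tm → g t ∈ γ '' Icc 0 t₀ := by
    intro t h0 h1
    have ht1 : t ∈ Icc (0:ℝ) 1 := ⟨h0, h1.trans htm1⟩
    refine ⟨⟨t, ht1⟩, ⟨?_, ?_⟩, ?_⟩
    · rw [← Subtype.coe_le_coe]; exact h0
    · rw [← Subtype.coe_le_coe]; exact h1.trans htmK.1.2
    · simp only [hg]; rw [projIcc_of_mem _ ht1]
  obtain ⟨a, ha, hap⟩ := exists_circ e (g tm) hs hdist
  obtain ⟨b, hb, hbq⟩ := exists_circ e q hs hq
  by_cases hab : a = b
  · -- the first hitting point is already `q`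
    refine ⟨⟨fun t => g (t * tm), hgc.comp (by fun_prop)⟩, ?_, ?_, ?_, ?_⟩
    · intro x y hxy
      have hx : (x : ℝ) * tm ∈ Icc (0:ℝ) 1 :=
        ⟨mul_nonneg x.2.1 htm0.le, mul_le_one₀ x.2.2 htm0.le htm1⟩
      have hy : (y : ℝ) * tm ∈ Icc (0:ℝ) 1 :=
        ⟨mul_nonneg y.2.1 htm0.le, mul_le_one₀ y.2.2 htm0.le htm1⟩
      have := hginj hx hy hxy
      exact Subtype.ext (mul_right_cancel₀ htm0.ne' this)
    · show g (((0 : unitInterval) : ℝ) * tm) = e
      simp [hg0]
    · show g (((1 : unitInterval) : ℝ) * tm) = q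
      rw [Set.Icc.coe_one, one_mul, ← hap, hab, hbq]
    · rintro _ ⟨x, rfl⟩
      left
      exact hgrange _ (mul_nonneg x.2.1 htm0.le) (mul_le_of_le_one_left htm0.le x.2.2)
  · set h : ℝ → EuclideanSpace ℝ (Fin 2) := fun u =>
      if u ≤ 1 / 2 then g (2 * u * tm) else circ e s (a + (2 * u - 1) * (b - a)) with hh
    have hcc : Continuous fun θ => circ e s θ := (circ_lipschitz e hs.le).continuous
    have hcont : Continuous h := by
      refine Continuous.if_le (hgc.comp (by fun_prop)) (hcc.comp (by fun_prop)) continuous_id continuous_const ?_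
      intro u hu
      rw [hu]
      norm_num
      exact hap.symm
    have hang : ∀ u, 1 / 2 ≤ u → u ≤ 1 → a + (2 * u - 1) * (b - a) ∈ Ioc (-Real.pi) Real.pi := by
      intro u h1 h2
      have hconv := convex_Ioc (𝕜 := ℝ) (-Real.pi) Real.pi
      have := hconv ha hb (a := 1 - (2 * u - 1)) (b := 2 * u - 1) (by linarith) (by linarith) (by ring)
      convert this using 1
      simp only [smul_eq_mul]
      ring
    have hcinj := circ_injOn e hs
    have hba : b - a ≠ 0 := sub_ne_zero.2 (Ne.symm hab)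
    have key : ∀ x y : ℝ, 0 ≤ x → x ≤ 1 → 0 ≤ y → y ≤ 1 → x ≤ 1 / 2 → ¬ y ≤ 1 / 2 → h x ≠ h y := by
      intro x y hx0 hx1 hy0 hy1 hx hy heq
      simp only [hh, if_pos hx, if_neg hy] at heq
      push Not at hy
      have hd : dist (g (2 * x * tm)) e = s := by rw [heq]; exact dist_circ_center e hs.le _
      have hx2 : 2 * x * tm = tm := by
        by_contra hne
        have : 2 * x * tm ≤ tm := by nlinarith
        have := hlt (2 * x * tm) (by positivity) (lt_of_le_of_ne this hne)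
        linarith
      rw [hx2, ← hap] at heq
      have h3 := hcinj ha (hang y hy.le hy1) heq
      have h4 : (2 * y - 1) * (b - a) = 0 := by linarith
      rcases mul_eq_zero.1 h4 with h5 | h5
      · linarith
      · exact hba h5
    refine ⟨⟨fun t => h t, hcont.comp continuous_subtype_val⟩, ?_, ?_, ?_, ?_⟩
    · intro x y hxy
      have hxy' : h x = h y := hxy
      have hx0 := x.2.1
      have hx1 := x.2.2
      have hy0 := y.2.1
      have hy1 := y.2.2
      apply Subtype.ext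
      by_cases hx : (x : ℝ) ≤ 1 / 2
      · by_cases hy : (y : ℝ) ≤ 1 / 2
        · simp only [hh, if_pos hx, if_pos hy] at hxy'
          have hx' : 2 * (x : ℝ) * tm ∈ Icc (0:ℝ) 1 := ⟨by positivity, mul_le_one₀ (by linarith) htm0.le htm1⟩
          have hy' : 2 * (y : ℝ) * tm ∈ Icc (0:ℝ) 1 := ⟨by positivity, mul_le_one₀ (by linarith) htm0.le htm1⟩
          have := mul_right_cancel₀ htm0.ne' (hginj hx' hy' hxy')
          linarith
        · exact absurd hxy' (key x y hx0 hx1 hy0 hy1 hx hy)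
      · by_cases hy : (y : ℝ) ≤ 1 / 2
        · exact absurd hxy'.symm (key y x hy0 hy1 hx0 hx1 hy hx)
        · simp only [hh, if_neg hx, if_neg hy] at hxy'
          push Not at hx hy
          have := hcinj (hang x hx.le hx1) (hang y hy.le hy1) hxy'
          have := mul_right_cancel₀ hba (add_left_cancel this)
          linarith
    · show h ((0 : unitInterval) : ℝ) = e
      simp [hh, hg0]
    · show h ((1 : unitInterval) : ℝ) = q
      simp only [hh, Set.Icc.coe_one]
      rw [if_neg (by norm_num), ← hbq]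
      congr 1
      ring
    · rintro _ ⟨x, rfl⟩
      show h x ∈ _
      by_cases hx : (x : ℝ) ≤ 1 / 2
      · left
        simp only [hh, if_pos hx]
        have hx0 := x.2.1
        exact hgrange _ (by positivity) (mul_le_of_le_one_left htm0.le (by linarith))
      · right
        simp only [hh, if_neg hx]
        push Not at hx
        exact ⟨_, hang x hx.le x.2.2, rfl⟩


/-- The point `(x, 0)`. -/
noncomputable def pt (x : ℝ) : EuclideanSpace ℝ (Fin 2) := WithLp.toLp 2 ![x, 0]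

lemma continuous_pt : Continuous pt := by
  unfold pt
  refine (PiLp.continuous_toLp 2 _).comp ?_
  refine continuous_pi fun i => ?_
  fin_cases i <;> simp <;> fun_prop

lemma pt_zero (x : ℝ) : pt x 0 = x := by simp [pt]

lemma pt_one (x : ℝ) : pt x 1 = 0 := by simp [pt]

lemma pt_eq {x : EuclideanSpace ℝ (Fin 2)} (hx : x 1 = 0) : pt (x 0) = x := by
  ext i
  fin_cases i
  · exact pt_zero _
  · exact (pt_one _).trans hx.symm

lemma circ_pt_pi (c s : ℝ) : circ (pt c) s Real.pi = pt (c - s) := by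
  ext i
  fin_cases i
  · show circ (pt c) s Real.pi 0 = pt (c - s) 0
    rw [circ_zero, pt_zero, pt_zero, Real.cos_pi]; ring
  · show circ (pt c) s Real.pi 1 = pt (c - s) 1
    rw [circ_one, pt_one, pt_one, Real.sin_pi]; ring

lemma circ_zero_angle {e : EuclideanSpace ℝ (Fin 2)} (he : e 1 = 0) (s : ℝ) :
    circ e s 0 = pt (e 0 + s) := by
  ext i
  fin_cases i
  · show circ e s 0 0 = pt (e 0 + s) 0
    rw [circ_zero, pt_zero, Real.cos_zero]; ring
  · show circ e s 0 1 = pt (e 0 + s) 1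
    rw [circ_one, pt_one, Real.sin_zero, he]; ring

/-- Admissibility for the family of arcs joining `E` to the rest of the axis. -/
def Adm (E : Set (EuclideanSpace ℝ (Fin 2))) (ρ : EuclideanSpace ℝ (Fin 2) → ℝ≥0∞) : Prop :=
  ∀ γ : C(unitInterval, EuclideanSpace ℝ (Fin 2)),
    Function.Injective γ → γ 0 ∈ E → γ 1 ∈ ({x | x 1 = 0} \ E) →
    μH[1] (Set.range γ) < ⊤ → 1 ≤ ∫⁻ x in Set.range γ, ρ x ∂μH[1]

lemma case_null {E : Set (EuclideanSpace ℝ (Fin 2))} (hE : E ⊆ {x | x 1 = 0 ∧ 0 ≤ x 0 ∧ x 0 ≤ 1})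
    (hnull : volume (pt ⁻¹' E) = 0) {ρ : EuclideanSpace ℝ (Fin 2) → ℝ≥0∞} (hρ : Measurable ρ)
    (hfin : ∫⁻ x, ρ x ^ 2 ≠ ⊤) (hadm : Adm E ρ)
    (γ : C(unitInterval, EuclideanSpace ℝ (Fin 2))) (hinj : Function.Injective γ) (hγ0 : γ 0 ∈ E)
    (hγ : μH[1] (range γ) < ⊤) : ∫⁻ x in range γ, ρ x ∂μH[1] = ⊤ := by
  by_contra hne
  have hpi := Real.pi_pos
  obtain ⟨t₀, ht₀, hpiece⟩ := initial_piece γ hinj hne
  set e := γ 0 with he
  have he1 : e 1 = 0 := (hE hγ0).1
  have hd0 : 0 < dist (γ t₀) e := dist_pos.2 fun h => ht₀.ne (hinj h).symm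
  have hε : ENNReal.ofReal (1 / (8 * Real.pi)) ≠ 0 := by
    rw [Ne, ENNReal.ofReal_eq_zero, not_le]; positivity
  obtain ⟨δ₁, hδ₁, hsmall⟩ := small_ball hfin e hε
  set δ := min (dist (γ t₀) e) δ₁ with hδ
  have hδ0 : 0 < δ := lt_min hd0 hδ₁
  have hlt := hsmall δ hδ0 (min_le_right _ _)
  set S : Set ℝ := Ioo 0 δ \ {s | e 0 + s ∈ pt ⁻¹' E} with hS
  have hSvol : volume S = ENNReal.ofReal δ := by
    have h0 : volume {s | e 0 + s ∈ pt ⁻¹' E} = 0 := by
      have : {s | e 0 + s ∈ pt ⁻¹' E} = (fun s => e 0 + s) ⁻¹' (pt ⁻¹' E) := rfl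
      rw [this, measure_preimage_add, hnull]
    rw [hS, measure_sdiff_null h0, Real.volume_Ioo, sub_zero]
  have hb := disc_bound e hδ0 hρ (S := S) sdiff_subset (by
    intro s hs
    have hs0 : 0 < s := hs.1.1
    have hs1 : s < dist (γ t₀) e := hs.1.2.trans_le (min_le_left _ _)
    obtain ⟨β, hβinj, hβ0, hβ1, hβr⟩ := exists_concat γ hinj ht₀ hs0 hs1
      (q := circ e s 0) (dist_circ_center e hs0.le 0)
    have hq : β 1 ∈ ({x | x 1 = 0} \ E) := by
      rw [hβ1, circ_zero_angle he1]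
      exact ⟨pt_one _, hs.2⟩
    have hrange : μH[1] (range β) < ⊤ := by
      refine (measure_mono hβr).trans_lt ((measure_union_le _ _).trans_lt ?_)
      refine ENNReal.add_lt_top.2 ⟨(measure_mono (image_subset_range _ _)).trans_lt hγ, hausdorff_C_lt_top e hs0⟩
    have h1 := hadm β hβinj (by rw [hβ0]; exact hγ0) hq hrange
    have h2 : (1 : ℝ≥0∞) ≤ 1 / 2 + ∫⁻ x in C e s, ρ x ∂μH[1] := by
      calc (1 : ℝ≥0∞) ≤ ∫⁻ x in range β, ρ x ∂μH[1] := h1
        _ ≤ ∫⁻ x in γ '' Icc 0 t₀ ∪ C e s, ρ x ∂μH[1] := lintegral_mono_set hβr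
        _ ≤ ∫⁻ x in γ '' Icc 0 t₀, ρ x ∂μH[1] + ∫⁻ x in C e s, ρ x ∂μH[1] :=
            lintegral_union_le _ _ _
        _ ≤ _ := by gcongr
    have h3 : (1 : ℝ≥0∞) - 1 / 2 ≤ ∫⁻ x in C e s, ρ x ∂μH[1] := tsub_le_iff_left.2 h2
    have h4 : (1 : ℝ≥0∞) - 1 / 2 = 1 / 2 := by
      rw [one_div, ENNReal.one_sub_inv_two]
    rwa [h4] at h3)
  rw [hSvol] at hb
  have hcontra : ENNReal.ofReal (8 * Real.pi * δ) * ∫⁻ x in Metric.ball e δ, ρ x ^ 2 < ENNReal.ofReal δ := by
    calc ENNReal.ofReal (8 * Real.pi * δ) * ∫⁻ x in Metric.ball e δ, ρ x ^ 2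
        < ENNReal.ofReal (8 * Real.pi * δ) * ENNReal.ofReal (1 / (8 * Real.pi)) := by
          refine (ENNReal.mul_lt_mul_iff_right ?_ ENNReal.ofReal_ne_top).2 hlt
          rw [Ne, ENNReal.ofReal_eq_zero, not_le]; positivity
      _ = ENNReal.ofReal δ := by
          rw [← ENNReal.ofReal_mul (by positivity)]
          congr 1
          field_simp
  exact absurd hb (not_le.2 hcontra)

/-- measure of the part of `K` moved off `K` by the translation `t`. -/
noncomputable def G (K : Set ℝ) (t : ℝ) : ℝ≥0∞ := volume {x | x ∈ K ∧ x + t ∉ K}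

lemma G_mul_le (K : Set ℝ) (t : ℝ) (n : ℕ) : G K (n * t) ≤ n * G K t := by
  induction n with
  | zero =>
    simp only [G, Nat.cast_zero, zero_mul, add_zero]
    simp
  | succ n ih =>
    have hsub : {x | x ∈ K ∧ x + ((n + 1 : ℕ) : ℝ) * t ∉ K} ⊆
        {x | x ∈ K ∧ x + (n : ℝ) * t ∉ K} ∪ (fun x => x + (n : ℝ) * t) ⁻¹' {x | x ∈ K ∧ x + t ∉ K} := by
      rintro x ⟨hx, hx'⟩
      by_cases h : x + (n : ℝ) * t ∈ K
      · right
        refine ⟨h, ?_⟩
        have : x + (n : ℝ) * t + t = x + ((n + 1 : ℕ) : ℝ) * t := by push_cast; ring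
        rwa [this]
      · left; exact ⟨hx, h⟩
    calc G K (((n + 1 : ℕ) : ℝ) * t) ≤ volume ({x | x ∈ K ∧ x + (n : ℝ) * t ∉ K} ∪
          (fun x => x + (n : ℝ) * t) ⁻¹' {x | x ∈ K ∧ x + t ∉ K}) := measure_mono hsub
      _ ≤ G K (n * t) + G K t := by
          refine (measure_union_le _ _).trans ?_
          rw [measure_preimage_add_right]
          rfl
      _ ≤ n * G K t + G K t := by gcongr
      _ = ((n + 1 : ℕ) : ℝ≥0∞) * G K t := by push_cast; ring

lemma G_ge {K : Set ℝ} (hK : K ⊆ Icc 0 1) {t : ℝ} (ht0 : 0 < t) (ht1 : t ≤ 1) :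
    ENNReal.ofReal (t / 2) * volume K ≤ G K t := by
  set n : ℕ := ⌊1 / t⌋₊ + 1 with hn
  have h1 : 1 < (n : ℝ) * t := by
    have := Nat.lt_floor_add_one (1 / t)
    rw [div_lt_iff₀ ht0] at this
    rw [hn]; push_cast; exact this
  have h2 : (n : ℝ) * (t / 2) ≤ 1 := by
    have := Nat.floor_le (a := 1 / t) (by positivity)
    rw [hn]; push_cast
    have h3 : (⌊1 / t⌋₊ : ℝ) * t ≤ 1 := by
      calc (⌊1 / t⌋₊ : ℝ) * t ≤ (1 / t) * t := by gcongr
        _ = 1 := by field_simp
    nlinarith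
  have h3 : G K (n * t) = volume K := by
    unfold G
    congr 1
    ext x
    constructor
    · exact fun h => h.1
    · intro hx
      refine ⟨hx, fun h => ?_⟩
      have := (hK h).2
      have := (hK hx).1
      linarith
  have h4 := G_mul_le K t n
  rw [h3] at h4
  calc ENNReal.ofReal (t / 2) * volume K ≤ ENNReal.ofReal (t / 2) * (n * G K t) := by gcongr
    _ = ENNReal.ofReal (n * (t / 2)) * G K t := by
        rw [ENNReal.ofReal_mul (Nat.cast_nonneg n), ENNReal.ofReal_natCast]; ring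
    _ ≤ ENNReal.ofReal 1 * G K t := by gcongr
    _ = G K t := by simp


/-- The semicircle over `[c - s, c + s]` run from `c - s` to `c + s`. -/
lemma semicircle {E : Set (EuclideanSpace ℝ (Fin 2))} {ρ : EuclideanSpace ℝ (Fin 2) → ℝ≥0∞}
    (hadm : Adm E ρ) {c s : ℝ} (hs : 0 < s) (h1 : pt (c - s) ∈ E) (h2 : pt (c + s) ∉ E) :
    1 ≤ ∫⁻ x in C (pt c) s, ρ x ∂μH[1] := by
  have hpi := Real.pi_pos
  have hcc : Continuous fun θ => circ (pt c) s θ := (circ_lipschitz (pt c) hs.le).continuous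
  have hang : ∀ u : ℝ, 0 ≤ u → u ≤ 1 → Real.pi * (1 - u) ∈ Ioc (-Real.pi) Real.pi := by
    intro u h0 h1
    constructor
    · nlinarith
    · nlinarith
  let β : C(unitInterval, EuclideanSpace ℝ (Fin 2)) :=
    ⟨fun t => circ (pt c) s (Real.pi * (1 - t)), hcc.comp (by fun_prop)⟩
  have hβr : range β ⊆ C (pt c) s := by
    rintro _ ⟨x, rfl⟩
    exact ⟨_, hang x x.2.1 x.2.2, rfl⟩
  have hinj : Function.Injective β := by
    intro x y hxy
    have := circ_injOn (pt c) hs (hang x x.2.1 x.2.2) (hang y y.2.1 y.2.2) hxy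
    have := mul_left_cancel₀ hpi.ne' this
    apply Subtype.ext
    linarith
  have hβ0 : β 0 = pt (c - s) := by
    show circ (pt c) s (Real.pi * (1 - ((0 : unitInterval) : ℝ))) = _
    rw [Set.Icc.coe_zero, sub_zero, mul_one, circ_pt_pi]
  have hβ1 : β 1 = pt (c + s) := by
    show circ (pt c) s (Real.pi * (1 - ((1 : unitInterval) : ℝ))) = _
    rw [Set.Icc.coe_one, sub_self, mul_zero, circ_zero_angle (pt_one c), pt_zero]
  have := hadm β hinj (by rw [hβ0]; exact h1) (by rw [hβ1]; exact ⟨pt_one _, h2⟩)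
    ((measure_mono hβr).trans_lt (hausdorff_C_lt_top _ hs))
  exact this.trans (lintegral_mono_set hβr)

lemma strip_bound {ρ : EuclideanSpace ℝ (Fin 2) → ℝ≥0∞} (hρ : Measurable ρ) {δ : ℝ} (hδ : 0 < δ) :
    ∫⁻ c : ℝ, ∫⁻ x in Metric.ball (pt c) δ, ρ x ^ 2 ≤
      ENNReal.ofReal (2 * δ) * ∫⁻ x in {x : EuclideanSpace ℝ (Fin 2) | |x 1| < δ}, ρ x ^ 2 := by
  have hm1 : MeasurableSet {x : EuclideanSpace ℝ (Fin 2) | |x 1| < δ} := by
    have : Continuous fun x : EuclideanSpace ℝ (Fin 2) => |x 1| := by fun_prop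
    exact (isOpen_lt this continuous_const).measurableSet
  have hW : IsOpen {p : ℝ × EuclideanSpace ℝ (Fin 2) | dist p.2 (pt p.1) < δ} :=
    isOpen_lt (continuous_snd.dist (continuous_pt.comp continuous_fst)) continuous_const
  have hWm := hW.measurableSet
  have e1 : ∀ c : ℝ, ∫⁻ x in Metric.ball (pt c) δ, ρ x ^ 2 =
      ∫⁻ x, ({p : ℝ × EuclideanSpace ℝ (Fin 2) | dist p.2 (pt p.1) < δ}.indicator
        (fun p => ρ p.2 ^ 2)) (c, x) := by
    intro c
    rw [← lintegral_indicator Metric.isOpen_ball.measurableSet]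
    refine lintegral_congr fun x => ?_
    by_cases hx : dist x (pt c) < δ
    · rw [indicator_of_mem (by exact hx), indicator_of_mem (by exact hx)]
    · rw [indicator_of_notMem (by exact hx), indicator_of_notMem (by exact hx)]
  have hmeas : Measurable ({p : ℝ × EuclideanSpace ℝ (Fin 2) | dist p.2 (pt p.1) < δ}.indicator
        (fun p => ρ p.2 ^ 2)) := ((hρ.comp measurable_snd).pow_const 2).indicator hWm
  simp_rw [e1]
  rw [lintegral_lintegral_swap (f := fun c x => ({p : ℝ × EuclideanSpace ℝ (Fin 2) | dist p.2 (pt p.1) < δ}.indicator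
        (fun p => ρ p.2 ^ 2)) (c, x)) hmeas.aemeasurable]
  rw [← lintegral_indicator hm1, ← lintegral_const_mul _ ((hρ.pow_const 2).indicator hm1)]
  refine lintegral_mono fun x => ?_
  have hcoord : ∀ c, dist x (pt c) < δ → |x 1| < δ ∧ |x 0 - c| < δ := by
    intro c hc
    have h0 : |x 0 - c| ≤ dist x (pt c) := by
      have := PiLp.dist_apply_le x (pt c) 0
      rwa [pt_zero, Real.dist_eq] at this
    have h1 : |x 1| ≤ dist x (pt c) := by
      have := PiLp.dist_apply_le x (pt c) 1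
      rwa [pt_one, Real.dist_eq, sub_zero] at this
    exact ⟨h1.trans_lt hc, h0.trans_lt hc⟩
  by_cases hx : |x 1| < δ
  · rw [indicator_of_mem (show x ∈ {x : EuclideanSpace ℝ (Fin 2) | |x 1| < δ} from hx)]
    calc ∫⁻ c : ℝ, ({p : ℝ × EuclideanSpace ℝ (Fin 2) | dist p.2 (pt p.1) < δ}.indicator
        (fun p => ρ p.2 ^ 2)) (c, x)
        ≤ ∫⁻ c : ℝ, (Ioo (x 0 - δ) (x 0 + δ)).indicator (fun _ => ρ x ^ 2) c := by
          refine lintegral_mono fun c => ?_
          by_cases hc : dist x (pt c) < δ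
          · have h2 := (hcoord c hc).2
            rw [abs_lt] at h2
            have hcm : c ∈ Ioo (x 0 - δ) (x 0 + δ) := ⟨by linarith, by linarith⟩
            rw [indicator_of_mem (by exact hc), indicator_of_mem hcm]
          · rw [indicator_of_notMem (by exact hc)]
            exact zero_le
      _ = ENNReal.ofReal (2 * δ) * ρ x ^ 2 := by
          rw [lintegral_indicator measurableSet_Ioo, lintegral_const,
            Measure.restrict_apply MeasurableSet.univ, univ_inter, Real.volume_Ioo, mul_comm]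
          congr 2
          ring
  · have : ∀ c : ℝ, ({p : ℝ × EuclideanSpace ℝ (Fin 2) | dist p.2 (pt p.1) < δ}.indicator
        (fun p => ρ p.2 ^ 2)) (c, x) = 0 := by
      intro c
      refine indicator_of_notMem ?_ _
      intro hc
      exact hx (hcoord c hc).1
    simp_rw [this]
    simp

lemma case_pos {E : Set (EuclideanSpace ℝ (Fin 2))} (hEc : IsCompact E)
    (hE : E ⊆ {x | x 1 = 0 ∧ 0 ≤ x 0 ∧ x 0 ≤ 1})
    (hpos : volume (pt ⁻¹' E) ≠ 0) {ρ : EuclideanSpace ℝ (Fin 2) → ℝ≥0∞} (hρ : Measurable ρ)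
    (hfin : ∫⁻ x, ρ x ^ 2 ≠ ⊤) (hadm : Adm E ρ) : False := by
  have hpi := Real.pi_pos
  set K : Set ℝ := pt ⁻¹' E with hK
  have hKcl : IsClosed K := hEc.isClosed.preimage continuous_pt
  have hKm : MeasurableSet K := hKcl.measurableSet
  have hKsub : K ⊆ Icc 0 1 := by
    intro x hx
    have := (hE hx).2
    rw [pt_zero] at this
    exact this
  -- for all small `δ`
  have main : ∀ δ : ℝ, 0 < δ → δ ≤ 1 / 2 → volume K ≤
      ENNReal.ofReal (64 * Real.pi) * ∫⁻ x in {x : EuclideanSpace ℝ (Fin 2) | |x 1| < δ}, ρ x ^ 2 := by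
    intro δ hδ hδ'
    set I := ∫⁻ x in {x : EuclideanSpace ℝ (Fin 2) | |x 1| < δ}, ρ x ^ 2 with hI
    set W : Set (ℝ × ℝ) := {p | p.2 ∈ Ioo (δ / 2) δ ∧ p.1 - p.2 ∈ K ∧ p.1 + p.2 ∉ K} with hW
    have hWm : MeasurableSet W := by
      refine (measurable_snd measurableSet_Ioo).inter (MeasurableSet.inter ?_ ?_)
      · exact (measurable_fst.sub measurable_snd) hKm
      · exact (measurable_fst.add measurable_snd) hKm.compl
    have hup : (volume : Measure (ℝ × ℝ)) W ≤
        ENNReal.ofReal (8 * Real.pi * δ) * (ENNReal.ofReal (2 * δ) * I) := by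
      rw [Measure.volume_eq_prod, Measure.prod_apply hWm]
      calc ∫⁻ c : ℝ, volume (Prod.mk c ⁻¹' W)
          ≤ ∫⁻ c : ℝ, ENNReal.ofReal (8 * Real.pi * δ) * ∫⁻ x in Metric.ball (pt c) δ, ρ x ^ 2 := by
            refine lintegral_mono fun c => ?_
            refine disc_bound (pt c) hδ hρ (S := Prod.mk c ⁻¹' W) ?_ ?_
            · intro s hs
              exact ⟨(by linarith [hs.1.1] : (0:ℝ) < s), hs.1.2⟩
            · intro s hs
              have hs0 : (0:ℝ) < s := by linarith [hs.1.1]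
              refine le_trans ?_ (semicircle hadm hs0 hs.2.1 hs.2.2)
              rw [one_div]
              exact ENNReal.inv_le_one.2 (by norm_num)
        _ = ENNReal.ofReal (8 * Real.pi * δ) * ∫⁻ c : ℝ, ∫⁻ x in Metric.ball (pt c) δ, ρ x ^ 2 := by
            rw [lintegral_const_mul' _ _ ENNReal.ofReal_ne_top]
        _ ≤ _ := by
            gcongr
            exact strip_bound hρ hδ
    have hlow : ENNReal.ofReal (δ / 2) * (ENNReal.ofReal (δ / 2) * volume K) ≤
        (volume : Measure (ℝ × ℝ)) W := by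
      rw [Measure.volume_eq_prod, Measure.prod_apply_symm hWm]
      calc ENNReal.ofReal (δ / 2) * (ENNReal.ofReal (δ / 2) * volume K)
          = ∫⁻ s in Ioo (δ / 2) δ, ENNReal.ofReal (δ / 2) * volume K := by
            rw [lintegral_const, Measure.restrict_apply MeasurableSet.univ, univ_inter,
              Real.volume_Ioo, mul_comm]
            congr 2
            ring
        _ = ∫⁻ s, (Ioo (δ / 2) δ).indicator (fun _ => ENNReal.ofReal (δ / 2) * volume K) s := by
            rw [lintegral_indicator measurableSet_Ioo]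
        _ ≤ ∫⁻ s, volume ((fun x => (x, s)) ⁻¹' W) := by
            refine lintegral_mono fun s => ?_
            by_cases hs : s ∈ Ioo (δ / 2) δ
            · rw [indicator_of_mem hs]
              have hs1 := hs.1
              have hs2 := hs.2
              have h1 := G_ge hKsub (t := 2 * s) (by linarith) (by linarith)
              have h2 : volume ((fun x => (x, s)) ⁻¹' W) = G K (2 * s) := by
                have : (fun x => (x, s)) ⁻¹' W = (fun x => x + (-s)) ⁻¹' {x | x ∈ K ∧ x + 2 * s ∉ K} := by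
                  ext x
                  simp only [hW, mem_preimage, mem_ofPred_eq]
                  constructor
                  · rintro ⟨_, h1, h2⟩
                    refine ⟨by rwa [← sub_eq_add_neg], ?_⟩
                    have : x + -s + 2 * s = x + s := by ring
                    rwa [this]
                  · rintro ⟨h1, h2⟩
                    refine ⟨hs, by rwa [sub_eq_add_neg], ?_⟩
                    have : x + -s + 2 * s = x + s := by ring
                    rwa [this] at h2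
                rw [this, measure_preimage_add_right]
                rfl
              rw [h2]
              refine le_trans ?_ h1
              gcongr
              linarith
            · rw [indicator_of_notMem hs]
              exact zero_le
    have hchain := hlow.trans hup
    have hleft : ENNReal.ofReal (δ / 2) * (ENNReal.ofReal (δ / 2) * volume K) =
        ENNReal.ofReal (δ ^ 2 / 4) * volume K := by
      rw [← mul_assoc, ← ENNReal.ofReal_mul (by positivity)]
      congr 2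
      ring
    have hright : ENNReal.ofReal (8 * Real.pi * δ) * (ENNReal.ofReal (2 * δ) * I) =
        ENNReal.ofReal (δ ^ 2 / 4) * (ENNReal.ofReal (64 * Real.pi) * I) := by
      have e1 : ENNReal.ofReal (8 * Real.pi * δ) * (ENNReal.ofReal (2 * δ) * I) =
          ENNReal.ofReal (16 * Real.pi * δ ^ 2) * I := by
        rw [← mul_assoc, ← ENNReal.ofReal_mul (by positivity)]
        congr 2
        ring
      have e2 : ENNReal.ofReal (δ ^ 2 / 4) * (ENNReal.ofReal (64 * Real.pi) * I) =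
          ENNReal.ofReal (16 * Real.pi * δ ^ 2) * I := by
        rw [← mul_assoc, ← ENNReal.ofReal_mul (by positivity)]
        congr 2
        ring
      rw [e1, e2]
    rw [hleft, hright] at hchain
    refine (ENNReal.mul_le_mul_iff_right ?_ ENNReal.ofReal_ne_top).1 hchain
    rw [Ne, ENNReal.ofReal_eq_zero, not_le]; positivity
  -- strips shrink to the axis
  set A : ℕ → Set (EuclideanSpace ℝ (Fin 2)) := fun n => {x | |x 1| < 1 / ((n : ℝ) + 2)} with hA
  set ν : Measure (EuclideanSpace ℝ (Fin 2)) := (volume : Measure (EuclideanSpace ℝ (Fin 2))).withDensity (fun x => ρ x ^ 2) with hν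
  have hAo : ∀ n, IsOpen (A n) := fun n => by
    have : Continuous fun x : EuclideanSpace ℝ (Fin 2) => |x 1| := by fun_prop
    exact isOpen_lt this continuous_const
  have hνA : ∀ n, ν (A n) = ∫⁻ x in A n, ρ x ^ 2 := fun n => withDensity_apply _ (hAo n).measurableSet
  have hanti : Antitone A := by
    intro m n hmn x hx
    have : (m : ℝ) ≤ n := by exact_mod_cast hmn
    refine lt_of_lt_of_le (show |x 1| < 1 / ((n : ℝ) + 2) from hx) ?_
    gcongr
  have hint : ⋂ n, A n ⊆ {x : EuclideanSpace ℝ (Fin 2) | x 1 = 0} := by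
    intro x hx
    rw [mem_iInter] at hx
    have hlim : Filter.Tendsto (fun n : ℕ => 1 / ((n : ℝ) + 2)) Filter.atTop (nhds 0) := by
      have h := (tendsto_one_div_add_atTop_nhds_zero_nat (𝕜 := ℝ)).comp (Filter.tendsto_add_atTop_nat 1)
      refine h.congr fun n => ?_
      simp only [Function.comp]
      push_cast
      ring_nf
    have : |x 1| ≤ 0 := ge_of_tendsto' hlim fun n => (show |x 1| < 1 / ((n : ℝ) + 2) from hx n).le
    exact abs_nonpos_iff.1 this
  have haxis : (volume : Measure (EuclideanSpace ℝ (Fin 2))) {x | x 1 = 0} = 0 := by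
    have hm : MeasurableSet {p : Fin 2 → ℝ | p 1 = 0} := (measurable_pi_apply 1) (measurableSet_singleton 0)
    have h1 := (PiLp.volume_preserving_ofLp (Fin 2)).measure_preimage hm.nullMeasurableSet
    have h2 : (volume : Measure (Fin 2 → ℝ)) {p | p 1 = 0} = 0 := by
      have := Measure.pi_hyperplane (fun _ : Fin 2 => (volume : Measure ℝ)) 1 0
      exact this
    rw [h2] at h1
    exact h1
  have hlim := tendsto_measure_iInter_atTop (μ := ν) (s := A) (fun n => (hAo n).measurableSet.nullMeasurableSet)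
    hanti ⟨0, by
      rw [hνA]
      exact ((setLIntegral_le_lintegral _ _).trans_lt (lt_top_iff_ne_top.2 hfin)).ne⟩
  have hzero : ν (⋂ n, A n) = 0 :=
    withDensity_absolutelyContinuous _ _ (measure_mono_null hint haxis)
  rw [hzero] at hlim
  have hlim2 := ENNReal.Tendsto.const_mul hlim (a := ENNReal.ofReal (64 * Real.pi)) (Or.inr ENNReal.ofReal_ne_top)
  rw [mul_zero] at hlim2
  have hle : volume K ≤ 0 := by
    refine ge_of_tendsto' hlim2 fun n => ?_
    have h := main (1 / ((n : ℝ) + 2)) (by positivity) (by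
      have : (0:ℝ) ≤ n := Nat.cast_nonneg n
      gcongr
      linarith)
    simp only [Function.comp, hνA]
    exact h
  exact hpos (le_antisymm hle (zero_le))

/-- The main theorem. -/
theorem main (E : Set (EuclideanSpace ℝ (Fin 2))) (hEc : IsCompact E)
    (hE : E ⊆ {x | x 1 = 0 ∧ 0 ≤ x 0 ∧ x 0 ≤ 1})
    (hcap : 0 < (⨅ (ρ : EuclideanSpace ℝ (Fin 2) → ℝ≥0∞) (_ : Measurable ρ)
            (_ : ∀ γ : C(unitInterval, EuclideanSpace ℝ (Fin 2)),
              Function.Injective γ → γ 0 ∈ E → γ 1 ∈ Metric.sphere (0 : EuclideanSpace ℝ (Fin 2)) 2 →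
              μH[1] (Set.range γ) < ⊤ → 1 ≤ ∫⁻ x in Set.range γ, ρ x ∂μH[1]),
            ∫⁻ x, ρ x ^ 2)) :
      (⨅ (ρ : EuclideanSpace ℝ (Fin 2) → ℝ≥0∞) (_ : Measurable ρ)
            (_ : ∀ γ : C(unitInterval, EuclideanSpace ℝ (Fin 2)),
              Function.Injective γ → γ 0 ∈ E → γ 1 ∈ ({x | x 1 = 0} \ E) →
              μH[1] (Set.range γ) < ⊤ → 1 ≤ ∫⁻ x in Set.range γ, ρ x ∂μH[1]),
            ∫⁻ x, ρ x ^ 2) = ⊤ := by
  refine iInf_eq_top.2 fun ρ => iInf_eq_top.2 fun hρ => iInf_eq_top.2 fun hadm => ?_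
  by_contra hfin
  have hadm' : Adm E ρ := hadm
  by_cases hnull : volume (pt ⁻¹' E) = 0
  swap
  · exact case_pos hEc hE hnull hρ hfin hadm'
  -- the capacity vanishes
  refine absurd hcap (not_lt.2 ?_)
  have hbound : ∀ n : ℕ, (⨅ (ρ : EuclideanSpace ℝ (Fin 2) → ℝ≥0∞) (_ : Measurable ρ)
            (_ : ∀ γ : C(unitInterval, EuclideanSpace ℝ (Fin 2)),
              Function.Injective γ → γ 0 ∈ E → γ 1 ∈ Metric.sphere (0 : EuclideanSpace ℝ (Fin 2)) 2 →
              μH[1] (Set.range γ) < ⊤ → 1 ≤ ∫⁻ x in Set.range γ, ρ x ∂μH[1]),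
            ∫⁻ x, ρ x ^ 2) ≤ ENNReal.ofReal ((1 / ((n : ℝ) + 1)) ^ 2) * ∫⁻ x, ρ x ^ 2 := by
    intro n
    set a : ℝ≥0∞ := ENNReal.ofReal (1 / ((n : ℝ) + 1)) with ha
    have ha0 : a ≠ 0 := by
      rw [ha, Ne, ENNReal.ofReal_eq_zero, not_le]; positivity
    refine iInf_le_of_le (fun x => a * ρ x) (iInf_le_of_le (hρ.const_mul a) (iInf_le_of_le ?_ ?_))
    · intro γ hinj hγ0 _ hγ
      rw [lintegral_const_mul _ hρ, case_null hE hnull hρ hfin hadm' γ hinj hγ0 hγ, ENNReal.mul_top ha0]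
      exact le_top
    · simp_rw [mul_pow]
      rw [lintegral_const_mul _ (hρ.pow_const 2), ha, ← ENNReal.ofReal_pow (by positivity)]
  have hlim : Filter.Tendsto (fun n : ℕ => ENNReal.ofReal ((1 / ((n : ℝ) + 1)) ^ 2) * ∫⁻ x, ρ x ^ 2)
      Filter.atTop (nhds 0) := by
    have h1 : Filter.Tendsto (fun n : ℕ => ENNReal.ofReal ((1 / ((n : ℝ) + 1)) ^ 2)) Filter.atTop (nhds 0) := by
      have h0 := (tendsto_one_div_add_atTop_nhds_zero_nat (𝕜 := ℝ)).pow 2
      have := ENNReal.tendsto_ofReal h0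
      simpa using this
    have := ENNReal.Tendsto.mul_const h1 (b := ∫⁻ x, ρ x ^ 2) (Or.inr hfin)
    simpa using this
  exact ge_of_tendsto' hlim hbound

end Pool.Agent.GoncharArc
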